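import Pool.Agent.helper14.NR.E5b.PN1

/-!
Generated: certificates.
-/

namespace Pool.Agent.helper14.NR.E5b

open Pool.Agent.helper31.IA (Z)
open Pool.Agent.helper31.IX (Op XOps runX Cov CovD cov_split covD_split)
open Pool.Agent.helper31.IC (TD)
open Pool.Agent.helper63.RG (reloc)
open Pool.Agent.helper63.NF hiding TD
open Pool.Agent.helper14.CF (xE covD_E)
open Pool.Agent.helper14.NR (share)

mutual
theorem E1_c0_t5 : CovD 1 gE1 [(174805221376, 3006529536), (233646325760, 68720001024), (431777382400, 431777382400)] :=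
  covD_E kE1_eq (.n 2 (.n 2 (.n 1 (.n 1 (.l 1) (.l 1)) (.n 1 (.l 1) (.n 0 (.l 1) (.l 1)))) (.n 2 (.n 0 (.n 1 (.l 0) (.l 0)) (.l 0)) (.l 0))) (.n 2 (.l 0) (.l 0)))
    [(174805221376, 3006529536), (233646325760, 68720001024), (431777382400, 431777382400)] rfl (by decide +kernel)
theorem E1_c0_t6 : CovD 1 gE1 [(174805221376, 3006529536), (371086327808, 68720001024), (431777382400, 431777382400)] :=
  covD_E kE1_eq (.n 2 (.n 1 (.n 2 (.n 2 (.l 1) (.n 2 (.n 1 (.l 1) (.l 1)) (.l 0))) (.l 0)) (.n 2 (.n 2 (.n 1 (.l 1) (.l 1)) (.n 2 (.n 1 (.n 0 (.l 1) (.l 1)) (.n 1 (.l 1) (.l 1))) (.l 0))) (.l 0))) (.n 2 (.l 0) (.l 0)))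
    [(174805221376, 3006529536), (371086327808, 68720001024), (431777382400, 431777382400)] rfl (by decide +kernel)
end

mutual
theorem E1_c0_t8 : CovD 1 gE1 [(180818280448, 3006529536), (233646325760, 68720001024), (431777382400, 431777382400)] :=
  covD_E kE1_eq (.n 2 (.n 2 (.n 1 (.n 1 (.l 1) (.l 1)) (.n 1 (.l 1) (.l 1))) (.n 2 (.l 0) (.l 0))) (.n 2 (.l 0) (.l 0)))
    [(180818280448, 3006529536), (233646325760, 68720001024), (431777382400, 431777382400)] rfl (by decide +kernel)
theorem E1_c0_t9 : CovD 1 gE1 [(180818280448, 3006529536), (371086327808, 68720001024), (431777382400, 431777382400)] :=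
  covD_E kE1_eq (.n 2 (.n 0 (.n 2 (.n 1 (.n 1 (.l 1) (.l 1)) (.n 2 (.l 1) (.n 0 (.l 0) (.l 0)))) (.l 0)) (.n 2 (.n 1 (.n 1 (.l 1) (.l 1)) (.n 2 (.l 1) (.l 0))) (.l 0))) (.n 2 (.l 0) (.l 0)))
    [(180818280448, 3006529536), (371086327808, 68720001024), (431777382400, 431777382400)] rfl (by decide +kernel)
end

mutual
theorem E1_c0_t11 : CovD 1 gE1 [(189837869056, 6013059072), (233646325760, 68720001024), (431777382400, 431777382400)] :=
  covD_E kE1_eq (.n 2 (.n 1 (.n 2 (.n 1 (.l 1) (.l 1)) (.l 0)) (.n 2 (.n 1 (.l 1) (.n 0 (.l 1) (.l 1))) (.l 0))) (.n 2 (.l 0) (.l 0)))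
    [(189837869056, 6013059072), (233646325760, 68720001024), (431777382400, 431777382400)] rfl (by decide +kernel)
theorem E1_c0_t12 : CovD 1 gE1 [(189837869056, 6013059072), (371086327808, 68720001024), (431777382400, 431777382400)] :=
  covD_E kE1_eq (.n 2 (.n 2 (.n 2 (.n 1 (.l 1) (.n 0 (.l 1) (.l 1))) (.n 0 (.n 0 (.l 0) (.l 0)) (.l 0))) (.l 0)) (.n 2 (.l 0) (.l 0)))
    [(189837869056, 6013059072), (371086327808, 68720001024), (431777382400, 431777382400)] rfl (by decide +kernel)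
end

mutual
theorem E1_c0_t14 : CovD 1 gE1 [(207877046272, 12026118144), (233646325760, 68720001024), (431777382400, 431777382400)] :=
  covD_E kE1_eq (.n 1 (.n 2 (.n 2 (.n 1 (.l 1) (.l 1)) (.l 0)) (.n 2 (.l 0) (.l 0))) (.n 2 (.n 2 (.n 0 (.n 1 (.l 1) (.l 1)) (.l 1)) (.l 0)) (.n 2 (.l 0) (.l 0))))
    [(207877046272, 12026118144), (233646325760, 68720001024), (431777382400, 431777382400)] rfl (by decide +kernel)
theorem E1_c0_t15 : CovD 1 gE1 [(207877046272, 12026118144), (371086327808, 68720001024), (431777382400, 431777382400)] :=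
  covD_E kE1_eq (.n 0 (.n 2 (.n 2 (.n 2 (.n 1 (.l 1) (.l 1)) (.l 0)) (.l 0)) (.n 2 (.l 0) (.l 0))) (.n 2 (.n 2 (.n 0 (.l 0) (.l 0)) (.l 0)) (.n 2 (.l 0) (.l 0))))
    [(207877046272, 12026118144), (371086327808, 68720001024), (431777382400, 431777382400)] rfl (by decide +kernel)
end

mutual
theorem E1_c0_t17 : CovD 1 gE1 [(183824809984, 12026118144), (302366326784, 137440002048), (1295332147200, 431777382400)] :=
  covD_E kE1_eq (.n 1 (.n 2 (.n 2 (.l 0) (.l 0)) (.n 2 (.l 0) (.l 0))) (.n 2 (.n 2 (.l 0) (.l 0)) (.n 2 (.l 0) (.l 0))))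
    [(183824809984, 12026118144), (302366326784, 137440002048), (1295332147200, 431777382400)] rfl (by decide +kernel)
theorem E1_c0_t18 : CovD 1 gE1 [(207877046272, 12026118144), (302366326784, 137440002048), (1295332147200, 431777382400)] :=
  covD_E kE1_eq (.n 1 (.n 2 (.n 2 (.n 0 (.l 0) (.l 0)) (.l 0)) (.n 2 (.l 0) (.l 0))) (.n 2 (.n 2 (.l 0) (.l 0)) (.n 2 (.l 0) (.l 0))))
    [(207877046272, 12026118144), (302366326784, 137440002048), (1295332147200, 431777382400)] rfl (by decide +kernel)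
end

theorem E1_c0_t4 : CovD 1 gE1 [(174805221376, 3006529536), (302366326784, 137440002048), (431777382400, 431777382400)] :=
  covD_split 1 (by decide +kernel) E1_c0_t5 E1_c0_t6

theorem E1_c0_t7 : CovD 1 gE1 [(180818280448, 3006529536), (302366326784, 137440002048), (431777382400, 431777382400)] :=
  covD_split 1 (by decide +kernel) E1_c0_t8 E1_c0_t9

theorem E1_c0_t3 : CovD 1 gE1 [(177811750912, 6013059072), (302366326784, 137440002048), (431777382400, 431777382400)] :=
  covD_split 0 (by decide +kernel) E1_c0_t4 E1_c0_t7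

theorem E1_c0_t10 : CovD 1 gE1 [(189837869056, 6013059072), (302366326784, 137440002048), (431777382400, 431777382400)] :=
  covD_split 1 (by decide +kernel) E1_c0_t11 E1_c0_t12

theorem E1_c0_t2 : CovD 1 gE1 [(183824809984, 12026118144), (302366326784, 137440002048), (431777382400, 431777382400)] :=
  covD_split 0 (by decide +kernel) E1_c0_t3 E1_c0_t10

theorem E1_c0_t13 : CovD 1 gE1 [(207877046272, 12026118144), (302366326784, 137440002048), (431777382400, 431777382400)] :=
  covD_split 1 (by decide +kernel) E1_c0_t14 E1_c0_t15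

theorem E1_c0_t1 : CovD 1 gE1 [(195850928128, 24052236288), (302366326784, 137440002048), (431777382400, 431777382400)] :=
  covD_split 0 (by decide +kernel) E1_c0_t2 E1_c0_t13

theorem E1_c0_t16 : CovD 1 gE1 [(195850928128, 24052236288), (302366326784, 137440002048), (1295332147200, 431777382400)] :=
  covD_split 0 (by decide +kernel) E1_c0_t17 E1_c0_t18

theorem E1_c0 : CovD 1 gE1 [(195850928128, 24052236288), (302366326784, 137440002048), (863554764800, 863554764800)] :=
  covD_split 2 (by decide +kernel) E1_c0_t1 E1_c0_t16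

end Pool.Agent.helper14.NR.E5b
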