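import Pool.Agent.helper14.NR.E5b.PN6

/-!
Generated: certificates.
-/

namespace Pool.Agent.helper14.NR.E5b

open Pool.Agent.helper31.IA (Z)
open Pool.Agent.helper31.IX (Op XOps runX Cov CovD cov_split covD_split)
open Pool.Agent.helper31.IC (TD)
open Pool.Agent.helper63.RG (reloc)
open Pool.Agent.helper63.NF hiding TD
open Pool.Agent.helper14.CF (xE covD_E)
open Pool.Agent.helper14.NR (share)

mutual
theorem A6_c0_t9 : CovD 1 gA6 [(183824809984, 12026118144), (173516324864, 8590000128), (343597383680, 343597383680)] :=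
  covD_E kA6_eq (.n 2 (.n 2 (.n 2 (.n 2 (.l 0) (.l 0)) (.n 2 (.l 0) (.l 0))) (.n 2 (.n 2 (.l 0) (.l 0)) (.n 2 (.l 0) (.l 0)))) (.n 2 (.n 0 (.n 2 (.l 0) (.l 0)) (.n 2 (.l 0) (.l 0))) (.n 2 (.n 0 (.l 0) (.l 0)) (.l 0))))
    [(183824809984, 12026118144), (173516324864, 8590000128), (343597383680, 343597383680)] rfl (by decide +kernel)
theorem A6_c0_t10 : CovD 1 gA6 [(183824809984, 12026118144), (173516324864, 8590000128), (1030792151040, 343597383680)] :=
  covD_E kA6_eq (.n 2 (.n 0 (.n 2 (.l 0) (.l 0)) (.n 2 (.l 0) (.l 0))) (.n 2 (.l 0) (.l 0)))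
    [(183824809984, 12026118144), (173516324864, 8590000128), (1030792151040, 343597383680)] rfl (by decide +kernel)
end

mutual
theorem A6_c0_t12 : CovD 1 gA6 [(183824809984, 12026118144), (190696325120, 8590000128), (343597383680, 343597383680)] :=
  covD_E kA6_eq (.n 2 (.n 0 (.n 2 (.n 2 (.l 0) (.l 0)) (.n 2 (.l 0) (.l 0))) (.n 2 (.n 2 (.l 0) (.l 0)) (.n 2 (.l 0) (.l 0)))) (.n 2 (.n 0 (.n 2 (.l 0) (.l 0)) (.n 2 (.l 0) (.l 0))) (.n 2 (.l 0) (.l 0))))
    [(183824809984, 12026118144), (190696325120, 8590000128), (343597383680, 343597383680)] rfl (by decide +kernel)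
theorem A6_c0_t13 : CovD 1 gA6 [(183824809984, 12026118144), (190696325120, 8590000128), (1030792151040, 343597383680)] :=
  covD_E kA6_eq (.n 2 (.n 2 (.n 0 (.l 0) (.l 0)) (.l 0)) (.n 0 (.l 0) (.l 0)))
    [(183824809984, 12026118144), (190696325120, 8590000128), (1030792151040, 343597383680)] rfl (by decide +kernel)
end

mutual
theorem A6_c0_t14 : CovD 1 gA6 [(183824809984, 12026118144), (182106324992, 17180000256), (2061584302080, 687194767360)] :=
  covD_E kA6_eq (.n 0 (.n 2 (.n 2 (.l 0) (.l 0)) (.n 0 (.l 0) (.l 0))) (.n 2 (.n 2 (.l 0) (.l 0)) (.n 0 (.l 0) (.l 0))))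
    [(183824809984, 12026118144), (182106324992, 17180000256), (2061584302080, 687194767360)] rfl (by decide +kernel)
theorem A6_c0_t15 : CovD 1 gA6 [(183824809984, 12026118144), (182106324992, 17180000256), (4123168604160, 1374389534720)] :=
  covD_E kA6_eq (.n 0 (.n 2 (.n 2 (.l 0) (.l 0)) (.n 2 (.n 2 (.l 0) (.l 0)) (.n 2 (.l 0) (.l 0)))) (.n 2 (.n 2 (.l 0) (.l 0)) (.n 0 (.l 0) (.l 0))))
    [(183824809984, 12026118144), (182106324992, 17180000256), (4123168604160, 1374389534720)] rfl (by decide +kernel)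
end

mutual
theorem A6_c0_t16 : CovD 1 gA6 [(183824809984, 12026118144), (182106324992, 17180000256), (8246337208320, 2748779069440)] :=
  covD_E kA6_eq (.n 0 (.n 0 (.n 2 (.n 2 (.n 0 (.l 1) (.n 2 (.l 0) (.l 0))) (.l 1)) (.l 1)) (.n 2 (.n 2 (.l 0) (.l 0)) (.n 0 (.l 1) (.l 0)))) (.n 2 (.n 2 (.l 0) (.l 0)) (.l 0)))
    [(183824809984, 12026118144), (182106324992, 17180000256), (8246337208320, 2748779069440)] rfl (by decide +kernel)
theorem A6_c0_t22 : CovD 1 gA6 [(183824809984, 12026118144), (216466325504, 17180000256), (171798691840, 171798691840)] :=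
  covD_E kA6_eq (.n 0 (.n 0 (.n 2 (.n 2 (.l 0) (.l 0)) (.n 2 (.l 0) (.l 0))) (.n 2 (.n 2 (.l 0) (.l 0)) (.n 2 (.l 0) (.l 0)))) (.n 1 (.n 2 (.n 2 (.l 0) (.l 0)) (.n 2 (.l 0) (.l 0))) (.n 2 (.n 2 (.l 0) (.l 0)) (.n 2 (.l 0) (.l 0)))))
    [(183824809984, 12026118144), (216466325504, 17180000256), (171798691840, 171798691840)] rfl (by decide +kernel)
end

mutual
theorem A6_c0_t23 : CovD 1 gA6 [(183824809984, 12026118144), (216466325504, 17180000256), (515396075520, 171798691840)] :=
  covD_E kA6_eq (.n 2 (.n 2 (.n 1 (.n 0 (.l 0) (.l 0)) (.l 0)) (.n 0 (.l 0) (.l 0))) (.n 0 (.n 2 (.l 0) (.l 0)) (.n 2 (.l 0) (.l 0))))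
    [(183824809984, 12026118144), (216466325504, 17180000256), (515396075520, 171798691840)] rfl (by decide +kernel)
theorem A6_c0_t24 : CovD 1 gA6 [(183824809984, 12026118144), (216466325504, 17180000256), (1030792151040, 343597383680)] :=
  covD_E kA6_eq (.n 2 (.n 0 (.n 2 (.l 0) (.l 0)) (.n 2 (.l 0) (.l 0))) (.n 2 (.n 0 (.l 0) (.l 0)) (.l 0)))
    [(183824809984, 12026118144), (216466325504, 17180000256), (1030792151040, 343597383680)] rfl (by decide +kernel)
end

mutual
theorem A6_c0_t25 : CovD 1 gA6 [(183824809984, 12026118144), (216466325504, 17180000256), (2061584302080, 687194767360)] :=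
  covD_E kA6_eq (.n 2 (.n 0 (.n 2 (.l 0) (.l 0)) (.n 2 (.l 0) (.l 0))) (.n 2 (.l 0) (.l 0)))
    [(183824809984, 12026118144), (216466325504, 17180000256), (2061584302080, 687194767360)] rfl (by decide +kernel)
theorem A6_c0_t26 : CovD 1 gA6 [(183824809984, 12026118144), (216466325504, 17180000256), (4123168604160, 1374389534720)] :=
  covD_E kA6_eq (.n 0 (.n 2 (.n 2 (.l 0) (.l 0)) (.n 2 (.l 0) (.l 0))) (.n 2 (.n 2 (.l 0) (.l 0)) (.l 0)))
    [(183824809984, 12026118144), (216466325504, 17180000256), (4123168604160, 1374389534720)] rfl (by decide +kernel)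
end

mutual
theorem A6_c0_t27 : CovD 1 gA6 [(183824809984, 12026118144), (216466325504, 17180000256), (8246337208320, 2748779069440)] :=
  covD_E kA6_eq (.n 0 (.n 0 (.n 2 (.n 2 (.n 2 (.l 0) (.l 0)) (.l 1)) (.l 1)) (.n 2 (.n 2 (.l 0) (.l 0)) (.n 0 (.l 0) (.l 0)))) (.n 2 (.n 2 (.l 0) (.l 0)) (.l 0)))
    [(183824809984, 12026118144), (216466325504, 17180000256), (8246337208320, 2748779069440)] rfl (by decide +kernel)
theorem A6_c0_t33 : CovD 1 gA6 [(177811750912, 6013059072), (250826326016, 17180000256), (687194767360, 687194767360)] :=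
  covD_E kA6_eq (.n 2 (.n 2 (.n 2 (.n 2 (.l 0) (.l 0)) (.n 2 (.l 0) (.l 0))) (.n 2 (.n 2 (.l 0) (.l 0)) (.n 0 (.l 0) (.l 0)))) (.n 2 (.n 2 (.l 0) (.l 0)) (.l 0)))
    [(177811750912, 6013059072), (250826326016, 17180000256), (687194767360, 687194767360)] rfl (by decide +kernel)
end

mutual
theorem A6_c0_t34 : CovD 1 gA6 [(189837869056, 6013059072), (250826326016, 17180000256), (687194767360, 687194767360)] :=
  covD_E kA6_eq (.n 2 (.n 2 (.n 2 (.n 2 (.l 0) (.l 0)) (.n 2 (.l 0) (.l 0))) (.n 2 (.n 2 (.l 0) (.l 0)) (.n 0 (.l 0) (.l 0)))) (.n 2 (.n 2 (.l 0) (.l 0)) (.l 0)))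
    [(189837869056, 6013059072), (250826326016, 17180000256), (687194767360, 687194767360)] rfl (by decide +kernel)
theorem A6_c0_t35 : CovD 1 gA6 [(183824809984, 12026118144), (250826326016, 17180000256), (2061584302080, 687194767360)] :=
  covD_E kA6_eq (.n 2 (.n 2 (.n 0 (.l 0) (.l 0)) (.l 0)) (.n 0 (.l 0) (.l 0)))
    [(183824809984, 12026118144), (250826326016, 17180000256), (2061584302080, 687194767360)] rfl (by decide +kernel)
end

mutual
theorem A6_c0_t36 : CovD 1 gA6 [(183824809984, 12026118144), (250826326016, 17180000256), (4123168604160, 1374389534720)] :=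
  covD_E kA6_eq (.n 2 (.n 2 (.n 0 (.l 0) (.l 0)) (.l 0)) (.n 2 (.l 0) (.l 0)))
    [(183824809984, 12026118144), (250826326016, 17180000256), (4123168604160, 1374389534720)] rfl (by decide +kernel)
theorem A6_c0_t37 : CovD 1 gA6 [(183824809984, 12026118144), (250826326016, 17180000256), (8246337208320, 2748779069440)] :=
  covD_E kA6_eq (.n 2 (.n 2 (.n 2 (.l 0) (.l 0)) (.n 2 (.l 0) (.l 0))) (.n 0 (.n 0 (.n 0 (.l 1) (.l 0)) (.l 0)) (.l 0)))
    [(183824809984, 12026118144), (250826326016, 17180000256), (8246337208320, 2748779069440)] rfl (by decide +kernel)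
end

mutual
theorem A6_c0_t42 : CovD 1 gA6 [(177811750912, 6013059072), (285186326528, 17180000256), (687194767360, 687194767360)] :=
  covD_E kA6_eq (.n 2 (.n 2 (.n 2 (.n 2 (.l 0) (.l 0)) (.n 2 (.l 0) (.l 0))) (.n 2 (.n 2 (.l 0) (.l 0)) (.l 0))) (.n 2 (.n 2 (.l 0) (.l 0)) (.l 0)))
    [(177811750912, 6013059072), (285186326528, 17180000256), (687194767360, 687194767360)] rfl (by decide +kernel)
theorem A6_c0_t43 : CovD 1 gA6 [(189837869056, 6013059072), (285186326528, 17180000256), (687194767360, 687194767360)] :=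
  covD_E kA6_eq (.n 2 (.n 2 (.n 2 (.n 2 (.l 0) (.l 0)) (.n 2 (.l 0) (.l 0))) (.n 2 (.n 1 (.l 0) (.l 0)) (.l 0))) (.n 2 (.n 2 (.l 0) (.l 0)) (.l 0)))
    [(189837869056, 6013059072), (285186326528, 17180000256), (687194767360, 687194767360)] rfl (by decide +kernel)
end

mutual
theorem A6_c0_t44 : CovD 1 gA6 [(183824809984, 12026118144), (285186326528, 17180000256), (2061584302080, 687194767360)] :=
  covD_E kA6_eq (.n 2 (.n 2 (.n 0 (.l 0) (.l 0)) (.l 0)) (.n 0 (.l 0) (.l 0)))
    [(183824809984, 12026118144), (285186326528, 17180000256), (2061584302080, 687194767360)] rfl (by decide +kernel)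
theorem A6_c0_t45 : CovD 1 gA6 [(183824809984, 12026118144), (285186326528, 17180000256), (4123168604160, 1374389534720)] :=
  covD_E kA6_eq (.n 2 (.n 2 (.n 0 (.l 0) (.l 0)) (.l 0)) (.n 0 (.l 0) (.l 0)))
    [(183824809984, 12026118144), (285186326528, 17180000256), (4123168604160, 1374389534720)] rfl (by decide +kernel)
end

mutual
theorem A6_c0_t46 : CovD 1 gA6 [(183824809984, 12026118144), (285186326528, 17180000256), (8246337208320, 2748779069440)] :=
  covD_E kA6_eq (.n 2 (.n 2 (.l 0) (.l 0)) (.n 2 (.l 0) (.l 0)))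
    [(183824809984, 12026118144), (285186326528, 17180000256), (8246337208320, 2748779069440)] rfl (by decide +kernel)
theorem A6_c0_t54 : CovD 1 gA6 [(207877046272, 12026118144), (173516324864, 8590000128), (343597383680, 343597383680)] :=
  covD_E kA6_eq (.n 2 (.n 2 (.n 2 (.n 2 (.l 0) (.l 0)) (.n 2 (.l 0) (.l 0))) (.n 2 (.n 2 (.l 0) (.l 0)) (.n 2 (.l 0) (.l 0)))) (.n 2 (.n 0 (.n 2 (.l 0) (.l 0)) (.n 2 (.l 0) (.l 0))) (.n 2 (.l 0) (.l 0))))
    [(207877046272, 12026118144), (173516324864, 8590000128), (343597383680, 343597383680)] rfl (by decide +kernel)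
end

mutual
theorem A6_c0_t55 : CovD 1 gA6 [(207877046272, 12026118144), (173516324864, 8590000128), (1030792151040, 343597383680)] :=
  covD_E kA6_eq (.n 2 (.n 2 (.n 0 (.l 0) (.l 0)) (.l 0)) (.n 2 (.l 0) (.l 0)))
    [(207877046272, 12026118144), (173516324864, 8590000128), (1030792151040, 343597383680)] rfl (by decide +kernel)
theorem A6_c0_t57 : CovD 1 gA6 [(207877046272, 12026118144), (190696325120, 8590000128), (343597383680, 343597383680)] :=
  covD_E kA6_eq (.n 2 (.n 2 (.n 2 (.n 0 (.l 0) (.l 0)) (.n 2 (.l 0) (.l 0))) (.n 0 (.n 2 (.l 0) (.l 0)) (.n 2 (.l 0) (.l 0)))) (.n 2 (.n 2 (.n 0 (.l 0) (.l 0)) (.l 0)) (.n 2 (.l 0) (.l 0))))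
    [(207877046272, 12026118144), (190696325120, 8590000128), (343597383680, 343597383680)] rfl (by decide +kernel)
end

mutual
theorem A6_c0_t58 : CovD 1 gA6 [(207877046272, 12026118144), (190696325120, 8590000128), (1030792151040, 343597383680)] :=
  covD_E kA6_eq (.n 2 (.n 2 (.n 0 (.l 0) (.l 0)) (.l 0)) (.n 0 (.l 0) (.l 0)))
    [(207877046272, 12026118144), (190696325120, 8590000128), (1030792151040, 343597383680)] rfl (by decide +kernel)
theorem A6_c0_t59 : CovD 1 gA6 [(207877046272, 12026118144), (182106324992, 17180000256), (2061584302080, 687194767360)] :=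
  covD_E kA6_eq (.n 0 (.n 2 (.n 2 (.l 0) (.l 0)) (.n 0 (.l 0) (.l 0))) (.n 2 (.n 2 (.l 0) (.l 0)) (.n 0 (.l 0) (.l 0))))
    [(207877046272, 12026118144), (182106324992, 17180000256), (2061584302080, 687194767360)] rfl (by decide +kernel)
end

mutual
theorem A6_c0_t60 : CovD 1 gA6 [(207877046272, 12026118144), (182106324992, 17180000256), (4123168604160, 1374389534720)] :=
  covD_E kA6_eq (.n 2 (.n 0 (.n 2 (.l 0) (.l 0)) (.n 2 (.l 0) (.l 0))) (.n 2 (.n 0 (.l 0) (.l 0)) (.l 0)))
    [(207877046272, 12026118144), (182106324992, 17180000256), (4123168604160, 1374389534720)] rfl (by decide +kernel)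
theorem A6_c0_t61 : CovD 1 gA6 [(207877046272, 12026118144), (182106324992, 17180000256), (8246337208320, 2748779069440)] :=
  covD_E kA6_eq (.n 0 (.n 2 (.n 2 (.l 0) (.l 0)) (.l 0)) (.n 2 (.n 2 (.l 0) (.l 0)) (.l 0)))
    [(207877046272, 12026118144), (182106324992, 17180000256), (8246337208320, 2748779069440)] rfl (by decide +kernel)
end

mutual
theorem A6_c0_t67 : CovD 1 gA6 [(201863987200, 6013059072), (216466325504, 17180000256), (343597383680, 343597383680)] :=
  covD_E kA6_eq (.n 2 (.n 1 (.n 2 (.n 2 (.l 0) (.l 0)) (.n 2 (.l 0) (.l 0))) (.n 2 (.n 2 (.l 0) (.l 0)) (.n 2 (.l 0) (.l 0)))) (.n 2 (.n 2 (.l 0) (.l 0)) (.n 1 (.l 0) (.l 0))))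
    [(201863987200, 6013059072), (216466325504, 17180000256), (343597383680, 343597383680)] rfl (by decide +kernel)
theorem A6_c0_t68 : CovD 1 gA6 [(213890105344, 6013059072), (216466325504, 17180000256), (343597383680, 343597383680)] :=
  covD_E kA6_eq (.n 2 (.n 1 (.n 2 (.n 2 (.l 0) (.l 0)) (.n 2 (.l 0) (.l 0))) (.n 2 (.n 2 (.l 0) (.l 0)) (.n 2 (.l 0) (.l 0)))) (.n 2 (.n 2 (.l 0) (.l 0)) (.n 1 (.l 0) (.l 0))))
    [(213890105344, 6013059072), (216466325504, 17180000256), (343597383680, 343597383680)] rfl (by decide +kernel)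
end

mutual
theorem A6_c0_t69 : CovD 1 gA6 [(207877046272, 12026118144), (216466325504, 17180000256), (1030792151040, 343597383680)] :=
  covD_E kA6_eq (.n 2 (.n 0 (.n 2 (.l 0) (.l 0)) (.n 2 (.l 0) (.l 0))) (.n 2 (.l 0) (.l 0)))
    [(207877046272, 12026118144), (216466325504, 17180000256), (1030792151040, 343597383680)] rfl (by decide +kernel)
theorem A6_c0_t70 : CovD 1 gA6 [(207877046272, 12026118144), (216466325504, 17180000256), (2061584302080, 687194767360)] :=
  covD_E kA6_eq (.n 2 (.n 2 (.n 0 (.l 0) (.l 0)) (.l 0)) (.n 0 (.l 0) (.l 0)))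
    [(207877046272, 12026118144), (216466325504, 17180000256), (2061584302080, 687194767360)] rfl (by decide +kernel)
end

mutual
theorem A6_c0_t71 : CovD 1 gA6 [(207877046272, 12026118144), (216466325504, 17180000256), (4123168604160, 1374389534720)] :=
  covD_E kA6_eq (.n 2 (.n 2 (.n 0 (.l 0) (.l 0)) (.l 0)) (.n 0 (.l 0) (.l 0)))
    [(207877046272, 12026118144), (216466325504, 17180000256), (4123168604160, 1374389534720)] rfl (by decide +kernel)
theorem A6_c0_t72 : CovD 1 gA6 [(207877046272, 12026118144), (216466325504, 17180000256), (8246337208320, 2748779069440)] :=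
  covD_E kA6_eq (.n 2 (.n 2 (.n 0 (.l 0) (.l 0)) (.l 0)) (.n 0 (.l 0) (.l 0)))
    [(207877046272, 12026118144), (216466325504, 17180000256), (8246337208320, 2748779069440)] rfl (by decide +kernel)
end

mutual
theorem A6_c0_t78 : CovD 1 gA6 [(207877046272, 12026118144), (250826326016, 17180000256), (343597383680, 343597383680)] :=
  covD_E kA6_eq (.n 2 (.n 0 (.n 2 (.n 2 (.l 0) (.l 0)) (.n 2 (.l 0) (.l 0))) (.n 2 (.n 2 (.l 0) (.l 0)) (.n 2 (.l 0) (.l 0)))) (.n 2 (.n 0 (.n 2 (.l 0) (.l 0)) (.n 2 (.l 0) (.l 0))) (.n 2 (.n 0 (.l 0) (.l 0)) (.l 0))))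
    [(207877046272, 12026118144), (250826326016, 17180000256), (343597383680, 343597383680)] rfl (by decide +kernel)
theorem A6_c0_t79 : CovD 1 gA6 [(207877046272, 12026118144), (250826326016, 17180000256), (1030792151040, 343597383680)] :=
  covD_E kA6_eq (.n 0 (.n 2 (.n 2 (.l 0) (.l 0)) (.l 0)) (.n 2 (.n 2 (.l 0) (.l 0)) (.l 0)))
    [(207877046272, 12026118144), (250826326016, 17180000256), (1030792151040, 343597383680)] rfl (by decide +kernel)
end

mutual
theorem A6_c0_t80 : CovD 1 gA6 [(207877046272, 12026118144), (250826326016, 17180000256), (2061584302080, 687194767360)] :=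
  covD_E kA6_eq (.n 2 (.n 2 (.n 0 (.l 0) (.l 0)) (.l 0)) (.n 0 (.l 0) (.l 0)))
    [(207877046272, 12026118144), (250826326016, 17180000256), (2061584302080, 687194767360)] rfl (by decide +kernel)
theorem A6_c0_t81 : CovD 1 gA6 [(207877046272, 12026118144), (250826326016, 17180000256), (4123168604160, 1374389534720)] :=
  covD_E kA6_eq (.n 2 (.n 2 (.l 0) (.l 0)) (.n 0 (.l 0) (.l 0)))
    [(207877046272, 12026118144), (250826326016, 17180000256), (4123168604160, 1374389534720)] rfl (by decide +kernel)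
end

mutual
theorem A6_c0_t82 : CovD 1 gA6 [(207877046272, 12026118144), (250826326016, 17180000256), (8246337208320, 2748779069440)] :=
  covD_E kA6_eq (.n 2 (.n 2 (.l 0) (.l 0)) (.n 0 (.l 0) (.l 0)))
    [(207877046272, 12026118144), (250826326016, 17180000256), (8246337208320, 2748779069440)] rfl (by decide +kernel)
theorem A6_c0_t87 : CovD 1 gA6 [(207877046272, 12026118144), (285186326528, 17180000256), (343597383680, 343597383680)] :=
  covD_E kA6_eq (.n 2 (.n 0 (.n 2 (.n 2 (.l 0) (.l 0)) (.n 2 (.l 0) (.l 0))) (.n 2 (.n 2 (.l 0) (.l 0)) (.n 2 (.l 0) (.l 0)))) (.n 2 (.n 2 (.n 0 (.l 0) (.l 0)) (.l 0)) (.n 0 (.l 0) (.l 0))))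
    [(207877046272, 12026118144), (285186326528, 17180000256), (343597383680, 343597383680)] rfl (by decide +kernel)
end

mutual
theorem A6_c0_t88 : CovD 1 gA6 [(207877046272, 12026118144), (285186326528, 17180000256), (1030792151040, 343597383680)] :=
  covD_E kA6_eq (.n 2 (.n 2 (.n 0 (.l 0) (.l 0)) (.l 0)) (.n 0 (.l 0) (.l 0)))
    [(207877046272, 12026118144), (285186326528, 17180000256), (1030792151040, 343597383680)] rfl (by decide +kernel)
theorem A6_c0_t89 : CovD 1 gA6 [(207877046272, 12026118144), (285186326528, 17180000256), (2061584302080, 687194767360)] :=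
  covD_E kA6_eq (.n 2 (.n 2 (.l 0) (.l 0)) (.n 0 (.l 0) (.l 0)))
    [(207877046272, 12026118144), (285186326528, 17180000256), (2061584302080, 687194767360)] rfl (by decide +kernel)
end

mutual
theorem A6_c0_t90 : CovD 1 gA6 [(207877046272, 12026118144), (285186326528, 17180000256), (4123168604160, 1374389534720)] :=
  covD_E kA6_eq (.n 2 (.n 2 (.l 0) (.l 0)) (.n 0 (.l 0) (.l 0)))
    [(207877046272, 12026118144), (285186326528, 17180000256), (4123168604160, 1374389534720)] rfl (by decide +kernel)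
theorem A6_c0_t91 : CovD 1 gA6 [(207877046272, 12026118144), (285186326528, 17180000256), (8246337208320, 2748779069440)] :=
  covD_E kA6_eq (.n 2 (.n 2 (.l 0) (.l 0)) (.n 0 (.l 0) (.l 0)))
    [(207877046272, 12026118144), (285186326528, 17180000256), (8246337208320, 2748779069440)] rfl (by decide +kernel)
end

mutual
theorem A6_c0_t98 : CovD 1 gA6 [(183824809984, 12026118144), (319546327040, 17180000256), (687194767360, 687194767360)] :=
  covD_E kA6_eq (.n 2 (.n 2 (.n 2 (.n 2 (.l 0) (.n 0 (.l 0) (.l 0))) (.n 0 (.n 2 (.l 0) (.l 0)) (.n 2 (.l 0) (.l 0)))) (.n 2 (.n 2 (.l 0) (.l 0)) (.n 0 (.l 0) (.l 0)))) (.n 2 (.n 2 (.n 0 (.l 0) (.l 0)) (.l 0)) (.n 0 (.l 0) (.l 0))))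
    [(183824809984, 12026118144), (319546327040, 17180000256), (687194767360, 687194767360)] rfl (by decide +kernel)
theorem A6_c0_t99 : CovD 1 gA6 [(183824809984, 12026118144), (353906327552, 17180000256), (687194767360, 687194767360)] :=
  covD_E kA6_eq (.n 2 (.n 2 (.n 2 (.n 2 (.l 0) (.l 0)) (.n 2 (.l 0) (.l 0))) (.n 0 (.n 2 (.l 0) (.l 0)) (.n 2 (.l 0) (.l 0)))) (.n 2 (.n 2 (.l 0) (.l 0)) (.n 0 (.l 0) (.l 0))))
    [(183824809984, 12026118144), (353906327552, 17180000256), (687194767360, 687194767360)] rfl (by decide +kernel)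
end

mutual
theorem A6_c0_t100 : CovD 1 gA6 [(183824809984, 12026118144), (336726327296, 34360000512), (2061584302080, 687194767360)] :=
  covD_E kA6_eq (.n 0 (.n 2 (.n 2 (.l 0) (.l 0)) (.n 0 (.l 0) (.l 0))) (.n 2 (.n 2 (.l 0) (.l 0)) (.n 0 (.l 0) (.l 0))))
    [(183824809984, 12026118144), (336726327296, 34360000512), (2061584302080, 687194767360)] rfl (by decide +kernel)
theorem A6_c0_t101 : CovD 1 gA6 [(183824809984, 12026118144), (336726327296, 34360000512), (4123168604160, 1374389534720)] :=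
  covD_E kA6_eq (.n 0 (.n 2 (.n 2 (.l 0) (.l 0)) (.n 0 (.l 0) (.l 0))) (.n 2 (.n 2 (.l 0) (.l 0)) (.n 0 (.l 0) (.l 0))))
    [(183824809984, 12026118144), (336726327296, 34360000512), (4123168604160, 1374389534720)] rfl (by decide +kernel)
end

mutual
theorem A6_c0_t102 : CovD 1 gA6 [(183824809984, 12026118144), (336726327296, 34360000512), (8246337208320, 2748779069440)] :=
  covD_E kA6_eq (.n 0 (.n 2 (.n 2 (.l 0) (.l 0)) (.n 0 (.l 0) (.l 0))) (.n 2 (.n 2 (.l 0) (.l 0)) (.n 0 (.l 0) (.l 0))))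
    [(183824809984, 12026118144), (336726327296, 34360000512), (8246337208320, 2748779069440)] rfl (by decide +kernel)
theorem A6_c0_t106 : CovD 1 gA6 [(183824809984, 12026118144), (388266328064, 17180000256), (1374389534720, 1374389534720)] :=
  covD_E kA6_eq (.n 2 (.n 2 (.n 0 (.n 2 (.n 2 (.l 0) (.l 0)) (.n 2 (.l 0) (.l 0))) (.n 2 (.n 2 (.l 0) (.l 0)) (.n 2 (.l 0) (.l 0)))) (.n 2 (.n 2 (.l 0) (.l 0)) (.n 0 (.l 0) (.l 0)))) (.n 2 (.n 2 (.l 0) (.l 0)) (.n 0 (.l 0) (.l 0))))
    [(183824809984, 12026118144), (388266328064, 17180000256), (1374389534720, 1374389534720)] rfl (by decide +kernel)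
end

mutual
theorem A6_c0_t107 : CovD 1 gA6 [(183824809984, 12026118144), (388266328064, 17180000256), (4123168604160, 1374389534720)] :=
  covD_E kA6_eq (.n 2 (.n 2 (.l 0) (.l 0)) (.n 0 (.l 0) (.l 0)))
    [(183824809984, 12026118144), (388266328064, 17180000256), (4123168604160, 1374389534720)] rfl (by decide +kernel)
theorem A6_c0_t109 : CovD 1 gA6 [(183824809984, 12026118144), (422626328576, 17180000256), (1374389534720, 1374389534720)] :=
  covD_E kA6_eq (.n 2 (.n 2 (.n 2 (.n 0 (.n 2 (.l 0) (.l 0)) (.n 2 (.l 0) (.l 0))) (.n 2 (.l 0) (.l 0))) (.n 0 (.n 2 (.l 0) (.l 0)) (.n 2 (.l 0) (.l 0)))) (.n 2 (.n 2 (.l 0) (.l 0)) (.n 0 (.l 0) (.l 0))))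
    [(183824809984, 12026118144), (422626328576, 17180000256), (1374389534720, 1374389534720)] rfl (by decide +kernel)
end

mutual
theorem A6_c0_t110 : CovD 1 gA6 [(183824809984, 12026118144), (422626328576, 17180000256), (4123168604160, 1374389534720)] :=
  covD_E kA6_eq (.n 2 (.n 2 (.l 0) (.l 0)) (.n 0 (.l 0) (.l 0)))
    [(183824809984, 12026118144), (422626328576, 17180000256), (4123168604160, 1374389534720)] rfl (by decide +kernel)
theorem A6_c0_t111 : CovD 1 gA6 [(183824809984, 12026118144), (405446328320, 34360000512), (8246337208320, 2748779069440)] :=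
  covD_E kA6_eq (.n 0 (.n 2 (.n 2 (.l 0) (.l 0)) (.l 0)) (.n 2 (.n 2 (.l 0) (.l 0)) (.l 0)))
    [(183824809984, 12026118144), (405446328320, 34360000512), (8246337208320, 2748779069440)] rfl (by decide +kernel)
end

mutual
theorem A6_c0_t116 : CovD 1 gA6 [(207877046272, 12026118144), (319546327040, 17180000256), (1374389534720, 1374389534720)] :=
  covD_E kA6_eq (.n 2 (.n 2 (.n 2 (.n 2 (.n 2 (.l 0) (.l 0)) (.n 2 (.l 0) (.l 0))) (.n 2 (.n 2 (.l 0) (.l 0)) (.n 0 (.l 0) (.l 0)))) (.n 2 (.n 2 (.l 0) (.l 0)) (.n 0 (.l 0) (.l 0)))) (.n 2 (.n 2 (.l 0) (.l 0)) (.n 0 (.l 0) (.l 0))))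
    [(207877046272, 12026118144), (319546327040, 17180000256), (1374389534720, 1374389534720)] rfl (by decide +kernel)
theorem A6_c0_t117 : CovD 1 gA6 [(207877046272, 12026118144), (319546327040, 17180000256), (4123168604160, 1374389534720)] :=
  covD_E kA6_eq (.n 2 (.n 2 (.l 0) (.l 0)) (.n 0 (.l 0) (.l 0)))
    [(207877046272, 12026118144), (319546327040, 17180000256), (4123168604160, 1374389534720)] rfl (by decide +kernel)
end

mutual
theorem A6_c0_t118 : CovD 1 gA6 [(207877046272, 12026118144), (319546327040, 17180000256), (8246337208320, 2748779069440)] :=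
  covD_E kA6_eq (.n 2 (.n 2 (.l 0) (.l 0)) (.n 0 (.l 0) (.l 0)))
    [(207877046272, 12026118144), (319546327040, 17180000256), (8246337208320, 2748779069440)] rfl (by decide +kernel)
theorem A6_c0_t121 : CovD 1 gA6 [(207877046272, 12026118144), (353906327552, 17180000256), (1374389534720, 1374389534720)] :=
  covD_E kA6_eq (.n 2 (.n 2 (.n 2 (.n 2 (.n 2 (.l 0) (.l 0)) (.n 0 (.l 0) (.l 0))) (.n 0 (.n 2 (.l 0) (.l 0)) (.n 2 (.l 0) (.l 0)))) (.n 2 (.n 2 (.l 0) (.l 0)) (.n 0 (.l 0) (.l 0)))) (.n 2 (.n 2 (.l 0) (.l 0)) (.n 0 (.l 0) (.l 0))))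
    [(207877046272, 12026118144), (353906327552, 17180000256), (1374389534720, 1374389534720)] rfl (by decide +kernel)
end

mutual
theorem A6_c0_t122 : CovD 1 gA6 [(207877046272, 12026118144), (353906327552, 17180000256), (4123168604160, 1374389534720)] :=
  covD_E kA6_eq (.n 2 (.n 2 (.l 0) (.l 0)) (.n 0 (.l 0) (.l 0)))
    [(207877046272, 12026118144), (353906327552, 17180000256), (4123168604160, 1374389534720)] rfl (by decide +kernel)
theorem A6_c0_t123 : CovD 1 gA6 [(207877046272, 12026118144), (353906327552, 17180000256), (8246337208320, 2748779069440)] :=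
  covD_E kA6_eq (.n 2 (.n 2 (.l 0) (.l 0)) (.l 0))
    [(207877046272, 12026118144), (353906327552, 17180000256), (8246337208320, 2748779069440)] rfl (by decide +kernel)
end

mutual
theorem A6_c0_t127 : CovD 1 gA6 [(207877046272, 12026118144), (388266328064, 17180000256), (1374389534720, 1374389534720)] :=
  covD_E kA6_eq (.n 2 (.n 2 (.n 2 (.n 0 (.n 2 (.l 0) (.l 0)) (.n 2 (.l 0) (.l 0))) (.n 2 (.n 0 (.l 0) (.l 0)) (.l 0))) (.n 0 (.n 2 (.l 0) (.l 0)) (.n 2 (.l 0) (.l 0)))) (.n 2 (.n 2 (.l 0) (.l 0)) (.n 0 (.l 0) (.l 0))))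
    [(207877046272, 12026118144), (388266328064, 17180000256), (1374389534720, 1374389534720)] rfl (by decide +kernel)
theorem A6_c0_t128 : CovD 1 gA6 [(207877046272, 12026118144), (422626328576, 17180000256), (1374389534720, 1374389534720)] :=
  covD_E kA6_eq (.n 2 (.n 2 (.n 2 (.n 2 (.l 0) (.l 0)) (.n 2 (.l 0) (.l 0))) (.n 2 (.n 0 (.l 0) (.l 0)) (.l 0))) (.n 2 (.n 2 (.l 0) (.l 0)) (.n 0 (.l 0) (.l 0))))
    [(207877046272, 12026118144), (422626328576, 17180000256), (1374389534720, 1374389534720)] rfl (by decide +kernel)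
end

mutual
theorem A6_c0_t129 : CovD 1 gA6 [(207877046272, 12026118144), (405446328320, 34360000512), (4123168604160, 1374389534720)] :=
  covD_E kA6_eq (.n 2 (.n 0 (.n 2 (.l 0) (.l 0)) (.n 2 (.l 0) (.l 0))) (.n 2 (.n 0 (.l 0) (.l 0)) (.l 0)))
    [(207877046272, 12026118144), (405446328320, 34360000512), (4123168604160, 1374389534720)] rfl (by decide +kernel)
theorem A6_c0_t130 : CovD 1 gA6 [(207877046272, 12026118144), (405446328320, 34360000512), (8246337208320, 2748779069440)] :=
  covD_E kA6_eq (.n 0 (.n 2 (.n 2 (.l 0) (.l 0)) (.l 0)) (.n 2 (.n 2 (.l 0) (.l 0)) (.l 0)))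
    [(207877046272, 12026118144), (405446328320, 34360000512), (8246337208320, 2748779069440)] rfl (by decide +kernel)
end

mutual
theorem B6_c0_t2 : CovD 1 gB6 [(183824809984, 12026118144), (302366326784, 137440002048), (27487895552, 27487895552)] :=
  covD_E kB6_eq (.n 1 (.n 0 (.n 0 (.n 1 (.l 1) (.n 2 (.l 1) (.l 1))) (.n 1 (.n 2 (.l 1) (.l 1)) (.n 0 (.l 0) (.l 0)))) (.n 1 (.n 1 (.l 0) (.l 0)) (.l 0))) (.n 1 (.n 2 (.l 0) (.l 0)) (.l 0)))
    [(183824809984, 12026118144), (302366326784, 137440002048), (27487895552, 27487895552)] rfl (by decide +kernel)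
theorem B6_c0_t3 : CovD 1 gB6 [(183824809984, 12026118144), (302366326784, 137440002048), (82463686656, 27487895552)] :=
  covD_E kB6_eq (.n 1 (.n 0 (.n 0 (.n 1 (.l 1) (.n 2 (.l 1) (.n 0 (.l 1) (.l 0)))) (.n 0 (.n 1 (.n 2 (.l 1) (.l 1)) (.l 0)) (.n 1 (.n 2 (.l 0) (.l 0)) (.l 0)))) (.n 1 (.n 1 (.l 0) (.l 0)) (.l 0))) (.n 1 (.n 2 (.l 0) (.l 0)) (.l 0)))
    [(183824809984, 12026118144), (302366326784, 137440002048), (82463686656, 27487895552)] rfl (by decide +kernel)
end

theorem B6_c0_t4 : CovD 1 gB6 [(207877046272, 12026118144), (302366326784, 137440002048), (54975791104, 54975791104)] :=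
  covD_E kB6_eq (.n 1 (.n 1 (.n 1 (.n 0 (.l 0) (.l 0)) (.l 0)) (.n 0 (.l 0) (.l 0))) (.n 1 (.n 0 (.l 0) (.l 0)) (.l 0)))
    [(207877046272, 12026118144), (302366326784, 137440002048), (54975791104, 54975791104)] rfl (by decide +kernel)

theorem A6_c0_t8 : CovD 1 gA6 [(183824809984, 12026118144), (173516324864, 8590000128), (687194767360, 687194767360)] :=
  covD_split 2 (by decide +kernel) A6_c0_t9 A6_c0_t10

theorem A6_c0_t11 : CovD 1 gA6 [(183824809984, 12026118144), (190696325120, 8590000128), (687194767360, 687194767360)] :=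
  covD_split 2 (by decide +kernel) A6_c0_t12 A6_c0_t13

theorem A6_c0_t7 : CovD 1 gA6 [(183824809984, 12026118144), (182106324992, 17180000256), (687194767360, 687194767360)] :=
  covD_split 1 (by decide +kernel) A6_c0_t8 A6_c0_t11

theorem A6_c0_t6 : CovD 1 gA6 [(183824809984, 12026118144), (182106324992, 17180000256), (1374389534720, 1374389534720)] :=
  covD_split 2 (by decide +kernel) A6_c0_t7 A6_c0_t14

theorem A6_c0_t5 : CovD 1 gA6 [(183824809984, 12026118144), (182106324992, 17180000256), (2748779069440, 2748779069440)] :=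
  covD_split 2 (by decide +kernel) A6_c0_t6 A6_c0_t15

theorem A6_c0_t4 : CovD 1 gA6 [(183824809984, 12026118144), (182106324992, 17180000256), (5497558138880, 5497558138880)] :=
  covD_split 2 (by decide +kernel) A6_c0_t5 A6_c0_t16

theorem A6_c0_t21 : CovD 1 gA6 [(183824809984, 12026118144), (216466325504, 17180000256), (343597383680, 343597383680)] :=
  covD_split 2 (by decide +kernel) A6_c0_t22 A6_c0_t23

theorem A6_c0_t20 : CovD 1 gA6 [(183824809984, 12026118144), (216466325504, 17180000256), (687194767360, 687194767360)] :=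
  covD_split 2 (by decide +kernel) A6_c0_t21 A6_c0_t24

theorem A6_c0_t19 : CovD 1 gA6 [(183824809984, 12026118144), (216466325504, 17180000256), (1374389534720, 1374389534720)] :=
  covD_split 2 (by decide +kernel) A6_c0_t20 A6_c0_t25

theorem A6_c0_t18 : CovD 1 gA6 [(183824809984, 12026118144), (216466325504, 17180000256), (2748779069440, 2748779069440)] :=
  covD_split 2 (by decide +kernel) A6_c0_t19 A6_c0_t26

theorem A6_c0_t17 : CovD 1 gA6 [(183824809984, 12026118144), (216466325504, 17180000256), (5497558138880, 5497558138880)] :=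
  covD_split 2 (by decide +kernel) A6_c0_t18 A6_c0_t27

theorem A6_c0_t3 : CovD 1 gA6 [(183824809984, 12026118144), (199286325248, 34360000512), (5497558138880, 5497558138880)] :=
  covD_split 1 (by decide +kernel) A6_c0_t4 A6_c0_t17

theorem A6_c0_t32 : CovD 1 gA6 [(183824809984, 12026118144), (250826326016, 17180000256), (687194767360, 687194767360)] :=
  covD_split 0 (by decide +kernel) A6_c0_t33 A6_c0_t34

theorem A6_c0_t31 : CovD 1 gA6 [(183824809984, 12026118144), (250826326016, 17180000256), (1374389534720, 1374389534720)] :=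
  covD_split 2 (by decide +kernel) A6_c0_t32 A6_c0_t35

theorem A6_c0_t30 : CovD 1 gA6 [(183824809984, 12026118144), (250826326016, 17180000256), (2748779069440, 2748779069440)] :=
  covD_split 2 (by decide +kernel) A6_c0_t31 A6_c0_t36

theorem A6_c0_t29 : CovD 1 gA6 [(183824809984, 12026118144), (250826326016, 17180000256), (5497558138880, 5497558138880)] :=
  covD_split 2 (by decide +kernel) A6_c0_t30 A6_c0_t37

theorem A6_c0_t41 : CovD 1 gA6 [(183824809984, 12026118144), (285186326528, 17180000256), (687194767360, 687194767360)] :=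
  covD_split 0 (by decide +kernel) A6_c0_t42 A6_c0_t43

theorem A6_c0_t40 : CovD 1 gA6 [(183824809984, 12026118144), (285186326528, 17180000256), (1374389534720, 1374389534720)] :=
  covD_split 2 (by decide +kernel) A6_c0_t41 A6_c0_t44

theorem A6_c0_t39 : CovD 1 gA6 [(183824809984, 12026118144), (285186326528, 17180000256), (2748779069440, 2748779069440)] :=
  covD_split 2 (by decide +kernel) A6_c0_t40 A6_c0_t45

theorem A6_c0_t38 : CovD 1 gA6 [(183824809984, 12026118144), (285186326528, 17180000256), (5497558138880, 5497558138880)] :=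
  covD_split 2 (by decide +kernel) A6_c0_t39 A6_c0_t46

theorem A6_c0_t28 : CovD 1 gA6 [(183824809984, 12026118144), (268006326272, 34360000512), (5497558138880, 5497558138880)] :=
  covD_split 1 (by decide +kernel) A6_c0_t29 A6_c0_t38

theorem A6_c0_t2 : CovD 1 gA6 [(183824809984, 12026118144), (233646325760, 68720001024), (5497558138880, 5497558138880)] :=
  covD_split 1 (by decide +kernel) A6_c0_t3 A6_c0_t28

theorem A6_c0_t53 : CovD 1 gA6 [(207877046272, 12026118144), (173516324864, 8590000128), (687194767360, 687194767360)] :=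
  covD_split 2 (by decide +kernel) A6_c0_t54 A6_c0_t55

theorem A6_c0_t56 : CovD 1 gA6 [(207877046272, 12026118144), (190696325120, 8590000128), (687194767360, 687194767360)] :=
  covD_split 2 (by decide +kernel) A6_c0_t57 A6_c0_t58

theorem A6_c0_t52 : CovD 1 gA6 [(207877046272, 12026118144), (182106324992, 17180000256), (687194767360, 687194767360)] :=
  covD_split 1 (by decide +kernel) A6_c0_t53 A6_c0_t56

theorem A6_c0_t51 : CovD 1 gA6 [(207877046272, 12026118144), (182106324992, 17180000256), (1374389534720, 1374389534720)] :=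
  covD_split 2 (by decide +kernel) A6_c0_t52 A6_c0_t59

theorem A6_c0_t50 : CovD 1 gA6 [(207877046272, 12026118144), (182106324992, 17180000256), (2748779069440, 2748779069440)] :=
  covD_split 2 (by decide +kernel) A6_c0_t51 A6_c0_t60

theorem A6_c0_t49 : CovD 1 gA6 [(207877046272, 12026118144), (182106324992, 17180000256), (5497558138880, 5497558138880)] :=
  covD_split 2 (by decide +kernel) A6_c0_t50 A6_c0_t61

theorem A6_c0_t66 : CovD 1 gA6 [(207877046272, 12026118144), (216466325504, 17180000256), (343597383680, 343597383680)] :=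
  covD_split 0 (by decide +kernel) A6_c0_t67 A6_c0_t68

theorem A6_c0_t65 : CovD 1 gA6 [(207877046272, 12026118144), (216466325504, 17180000256), (687194767360, 687194767360)] :=
  covD_split 2 (by decide +kernel) A6_c0_t66 A6_c0_t69

theorem A6_c0_t64 : CovD 1 gA6 [(207877046272, 12026118144), (216466325504, 17180000256), (1374389534720, 1374389534720)] :=
  covD_split 2 (by decide +kernel) A6_c0_t65 A6_c0_t70

theorem A6_c0_t63 : CovD 1 gA6 [(207877046272, 12026118144), (216466325504, 17180000256), (2748779069440, 2748779069440)] :=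
  covD_split 2 (by decide +kernel) A6_c0_t64 A6_c0_t71

theorem A6_c0_t62 : CovD 1 gA6 [(207877046272, 12026118144), (216466325504, 17180000256), (5497558138880, 5497558138880)] :=
  covD_split 2 (by decide +kernel) A6_c0_t63 A6_c0_t72

theorem A6_c0_t48 : CovD 1 gA6 [(207877046272, 12026118144), (199286325248, 34360000512), (5497558138880, 5497558138880)] :=
  covD_split 1 (by decide +kernel) A6_c0_t49 A6_c0_t62

theorem A6_c0_t77 : CovD 1 gA6 [(207877046272, 12026118144), (250826326016, 17180000256), (687194767360, 687194767360)] :=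
  covD_split 2 (by decide +kernel) A6_c0_t78 A6_c0_t79

theorem A6_c0_t76 : CovD 1 gA6 [(207877046272, 12026118144), (250826326016, 17180000256), (1374389534720, 1374389534720)] :=
  covD_split 2 (by decide +kernel) A6_c0_t77 A6_c0_t80

theorem A6_c0_t75 : CovD 1 gA6 [(207877046272, 12026118144), (250826326016, 17180000256), (2748779069440, 2748779069440)] :=
  covD_split 2 (by decide +kernel) A6_c0_t76 A6_c0_t81

theorem A6_c0_t74 : CovD 1 gA6 [(207877046272, 12026118144), (250826326016, 17180000256), (5497558138880, 5497558138880)] :=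
  covD_split 2 (by decide +kernel) A6_c0_t75 A6_c0_t82

theorem A6_c0_t86 : CovD 1 gA6 [(207877046272, 12026118144), (285186326528, 17180000256), (687194767360, 687194767360)] :=
  covD_split 2 (by decide +kernel) A6_c0_t87 A6_c0_t88

theorem A6_c0_t85 : CovD 1 gA6 [(207877046272, 12026118144), (285186326528, 17180000256), (1374389534720, 1374389534720)] :=
  covD_split 2 (by decide +kernel) A6_c0_t86 A6_c0_t89

theorem A6_c0_t84 : CovD 1 gA6 [(207877046272, 12026118144), (285186326528, 17180000256), (2748779069440, 2748779069440)] :=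
  covD_split 2 (by decide +kernel) A6_c0_t85 A6_c0_t90

theorem A6_c0_t83 : CovD 1 gA6 [(207877046272, 12026118144), (285186326528, 17180000256), (5497558138880, 5497558138880)] :=
  covD_split 2 (by decide +kernel) A6_c0_t84 A6_c0_t91

theorem A6_c0_t73 : CovD 1 gA6 [(207877046272, 12026118144), (268006326272, 34360000512), (5497558138880, 5497558138880)] :=
  covD_split 1 (by decide +kernel) A6_c0_t74 A6_c0_t83

theorem A6_c0_t47 : CovD 1 gA6 [(207877046272, 12026118144), (233646325760, 68720001024), (5497558138880, 5497558138880)] :=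
  covD_split 1 (by decide +kernel) A6_c0_t48 A6_c0_t73

theorem A6_c0_t1 : CovD 1 gA6 [(195850928128, 24052236288), (233646325760, 68720001024), (5497558138880, 5497558138880)] :=
  covD_split 0 (by decide +kernel) A6_c0_t2 A6_c0_t47

theorem A6_c0_t97 : CovD 1 gA6 [(183824809984, 12026118144), (336726327296, 34360000512), (687194767360, 687194767360)] :=
  covD_split 1 (by decide +kernel) A6_c0_t98 A6_c0_t99

theorem A6_c0_t96 : CovD 1 gA6 [(183824809984, 12026118144), (336726327296, 34360000512), (1374389534720, 1374389534720)] :=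
  covD_split 2 (by decide +kernel) A6_c0_t97 A6_c0_t100

theorem A6_c0_t95 : CovD 1 gA6 [(183824809984, 12026118144), (336726327296, 34360000512), (2748779069440, 2748779069440)] :=
  covD_split 2 (by decide +kernel) A6_c0_t96 A6_c0_t101

theorem A6_c0_t94 : CovD 1 gA6 [(183824809984, 12026118144), (336726327296, 34360000512), (5497558138880, 5497558138880)] :=
  covD_split 2 (by decide +kernel) A6_c0_t95 A6_c0_t102

theorem A6_c0_t105 : CovD 1 gA6 [(183824809984, 12026118144), (388266328064, 17180000256), (2748779069440, 2748779069440)] :=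
  covD_split 2 (by decide +kernel) A6_c0_t106 A6_c0_t107

theorem A6_c0_t108 : CovD 1 gA6 [(183824809984, 12026118144), (422626328576, 17180000256), (2748779069440, 2748779069440)] :=
  covD_split 2 (by decide +kernel) A6_c0_t109 A6_c0_t110

theorem A6_c0_t104 : CovD 1 gA6 [(183824809984, 12026118144), (405446328320, 34360000512), (2748779069440, 2748779069440)] :=
  covD_split 1 (by decide +kernel) A6_c0_t105 A6_c0_t108

theorem A6_c0_t103 : CovD 1 gA6 [(183824809984, 12026118144), (405446328320, 34360000512), (5497558138880, 5497558138880)] :=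
  covD_split 2 (by decide +kernel) A6_c0_t104 A6_c0_t111

theorem A6_c0_t93 : CovD 1 gA6 [(183824809984, 12026118144), (371086327808, 68720001024), (5497558138880, 5497558138880)] :=
  covD_split 1 (by decide +kernel) A6_c0_t94 A6_c0_t103

theorem A6_c0_t115 : CovD 1 gA6 [(207877046272, 12026118144), (319546327040, 17180000256), (2748779069440, 2748779069440)] :=
  covD_split 2 (by decide +kernel) A6_c0_t116 A6_c0_t117

theorem A6_c0_t114 : CovD 1 gA6 [(207877046272, 12026118144), (319546327040, 17180000256), (5497558138880, 5497558138880)] :=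
  covD_split 2 (by decide +kernel) A6_c0_t115 A6_c0_t118

theorem A6_c0_t120 : CovD 1 gA6 [(207877046272, 12026118144), (353906327552, 17180000256), (2748779069440, 2748779069440)] :=
  covD_split 2 (by decide +kernel) A6_c0_t121 A6_c0_t122

theorem A6_c0_t119 : CovD 1 gA6 [(207877046272, 12026118144), (353906327552, 17180000256), (5497558138880, 5497558138880)] :=
  covD_split 2 (by decide +kernel) A6_c0_t120 A6_c0_t123

theorem A6_c0_t113 : CovD 1 gA6 [(207877046272, 12026118144), (336726327296, 34360000512), (5497558138880, 5497558138880)] :=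
  covD_split 1 (by decide +kernel) A6_c0_t114 A6_c0_t119

theorem A6_c0_t126 : CovD 1 gA6 [(207877046272, 12026118144), (405446328320, 34360000512), (1374389534720, 1374389534720)] :=
  covD_split 1 (by decide +kernel) A6_c0_t127 A6_c0_t128

theorem A6_c0_t125 : CovD 1 gA6 [(207877046272, 12026118144), (405446328320, 34360000512), (2748779069440, 2748779069440)] :=
  covD_split 2 (by decide +kernel) A6_c0_t126 A6_c0_t129

theorem A6_c0_t124 : CovD 1 gA6 [(207877046272, 12026118144), (405446328320, 34360000512), (5497558138880, 5497558138880)] :=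
  covD_split 2 (by decide +kernel) A6_c0_t125 A6_c0_t130

theorem A6_c0_t112 : CovD 1 gA6 [(207877046272, 12026118144), (371086327808, 68720001024), (5497558138880, 5497558138880)] :=
  covD_split 1 (by decide +kernel) A6_c0_t113 A6_c0_t124

theorem A6_c0_t92 : CovD 1 gA6 [(195850928128, 24052236288), (371086327808, 68720001024), (5497558138880, 5497558138880)] :=
  covD_split 0 (by decide +kernel) A6_c0_t93 A6_c0_t112

theorem A6_c0 : CovD 1 gA6 [(195850928128, 24052236288), (302366326784, 137440002048), (5497558138880, 5497558138880)] :=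
  covD_split 1 (by decide +kernel) A6_c0_t1 A6_c0_t92

theorem B6_c0_t1 : CovD 1 gB6 [(183824809984, 12026118144), (302366326784, 137440002048), (54975791104, 54975791104)] :=
  covD_split 2 (by decide +kernel) B6_c0_t2 B6_c0_t3

theorem B6_c0 : CovD 1 gB6 [(195850928128, 24052236288), (302366326784, 137440002048), (54975791104, 54975791104)] :=
  covD_split 0 (by decide +kernel) B6_c0_t1 B6_c0_t4

end Pool.Agent.helper14.NR.E5b
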