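import Pool.Agent.helper14.NR.E5b.PN6

/-!
Generated: certificates.
-/

namespace Pool.Agent.helper14.NR.E5b

open Pool.Agent.helper31.IA (Z)
open Pool.Agent.helper31.IX (Op XOps runX Cov CovD cov_split covD_split)
open Pool.Agent.helper31.IC (TD)
open Pool.Agent.helper63.RG (reloc)
open Pool.Agent.helper63.NF hiding TD
open Pool.Agent.helper14.CF (xE covD_E)
open Pool.Agent.helper14.NR (share)

mutual
theorem D6_c0_t3 : CovD 1 gD6 [(183824809984, 12026118144), (199286325248, 34360000512), (863554764800, 863554764800)] :=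
  covD_E kD6_eq (.n 2 (.n 2 (.n 2 (.l 0) (.l 0)) (.n 2 (.l 0) (.l 0))) (.n 2 (.n 2 (.l 0) (.n 2 (.l 0) (.l 0))) (.n 2 (.n 2 (.l 0) (.l 1)) (.l 1))))
    [(183824809984, 12026118144), (199286325248, 34360000512), (863554764800, 863554764800)] rfl (by decide +kernel)
theorem D6_c0_t4 : CovD 1 gD6 [(207877046272, 12026118144), (199286325248, 34360000512), (863554764800, 863554764800)] :=
  covD_E kD6_eq (.n 2 (.n 2 (.n 2 (.l 0) (.l 0)) (.n 2 (.l 0) (.l 0))) (.n 2 (.n 2 (.l 1) (.l 1)) (.l 1)))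
    [(207877046272, 12026118144), (199286325248, 34360000512), (863554764800, 863554764800)] rfl (by decide +kernel)
end

mutual
theorem D6_c0_t5 : CovD 1 gD6 [(195850928128, 24052236288), (268006326272, 34360000512), (863554764800, 863554764800)] :=
  covD_E kD6_eq (.n 2 (.n 2 (.n 2 (.l 0) (.n 0 (.l 0) (.l 0))) (.n 0 (.n 2 (.l 0) (.l 0)) (.n 2 (.l 0) (.l 0)))) (.n 0 (.n 2 (.n 2 (.l 0) (.l 0)) (.n 0 (.n 2 (.l 1) (.l 1)) (.l 1))) (.n 2 (.n 1 (.l 1) (.l 1)) (.l 1))))
    [(195850928128, 24052236288), (268006326272, 34360000512), (863554764800, 863554764800)] rfl (by decide +kernel)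
theorem D6_c0_t7 : CovD 1 gD6 [(183824809984, 12026118144), (371086327808, 68720001024), (863554764800, 863554764800)] :=
  covD_E kD6_eq (.n 1 (.n 2 (.n 2 (.l 0) (.n 2 (.l 0) (.l 0))) (.n 2 (.n 2 (.l 0) (.l 0)) (.n 2 (.l 0) (.l 1)))) (.n 2 (.n 2 (.l 0) (.l 0)) (.n 0 (.n 2 (.l 0) (.l 1)) (.n 2 (.l 0) (.l 1)))))
    [(183824809984, 12026118144), (371086327808, 68720001024), (863554764800, 863554764800)] rfl (by decide +kernel)
end

mutual
theorem D6_c0_t8 : CovD 1 gD6 [(207877046272, 12026118144), (371086327808, 68720001024), (863554764800, 863554764800)] :=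
  covD_E kD6_eq (.n 1 (.n 2 (.n 2 (.l 0) (.n 0 (.l 0) (.l 0))) (.n 2 (.l 1) (.l 1))) (.n 2 (.n 2 (.l 0) (.n 0 (.l 0) (.l 0))) (.n 2 (.l 1) (.l 1))))
    [(207877046272, 12026118144), (371086327808, 68720001024), (863554764800, 863554764800)] rfl (by decide +kernel)
theorem E6_c0_t1 : CovD 1 gE6 [(195850928128, 24052236288), (302366326784, 137440002048), (431777382400, 431777382400)] :=
  covD_E kE6_eq (.n 1 (.n 0 (.n 2 (.l 1) (.l 1)) (.n 2 (.l 1) (.l 1))) (.n 2 (.l 1) (.n 0 (.l 1) (.l 1))))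
    [(195850928128, 24052236288), (302366326784, 137440002048), (431777382400, 431777382400)] rfl (by decide +kernel)
end

theorem E6_c0_t2 : CovD 1 gE6 [(195850928128, 24052236288), (302366326784, 137440002048), (1295332147200, 431777382400)] :=
  covD_E kE6_eq (.n 1 (.n 1 (.n 2 (.l 1) (.n 0 (.l 1) (.l 1))) (.n 2 (.l 1) (.n 0 (.l 1) (.l 1)))) (.n 1 (.n 2 (.l 1) (.l 1)) (.n 2 (.l 1) (.l 1))))
    [(195850928128, 24052236288), (302366326784, 137440002048), (1295332147200, 431777382400)] rfl (by decide +kernel)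

theorem D6_c0_t2 : CovD 1 gD6 [(195850928128, 24052236288), (199286325248, 34360000512), (863554764800, 863554764800)] :=
  covD_split 0 (by decide +kernel) D6_c0_t3 D6_c0_t4

theorem D6_c0_t1 : CovD 1 gD6 [(195850928128, 24052236288), (233646325760, 68720001024), (863554764800, 863554764800)] :=
  covD_split 1 (by decide +kernel) D6_c0_t2 D6_c0_t5

theorem D6_c0_t6 : CovD 1 gD6 [(195850928128, 24052236288), (371086327808, 68720001024), (863554764800, 863554764800)] :=
  covD_split 0 (by decide +kernel) D6_c0_t7 D6_c0_t8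

theorem D6_c0 : CovD 1 gD6 [(195850928128, 24052236288), (302366326784, 137440002048), (863554764800, 863554764800)] :=
  covD_split 1 (by decide +kernel) D6_c0_t1 D6_c0_t6

theorem E6_c0 : CovD 1 gE6 [(195850928128, 24052236288), (302366326784, 137440002048), (863554764800, 863554764800)] :=
  covD_split 2 (by decide +kernel) E6_c0_t1 E6_c0_t2

end Pool.Agent.helper14.NR.E5b
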