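import Pool.Agent.helper14.NR.E5b.PZ

/-!
Generated: certificates.
-/

namespace Pool.Agent.helper14.NR.E5b

open Pool.Agent.helper31.IA (Z)
open Pool.Agent.helper31.IX (Op XOps runX Cov CovD cov_split covD_split)
open Pool.Agent.helper31.IC (TD)
open Pool.Agent.helper63.RG (reloc)
open Pool.Agent.helper63.NF hiding TD
open Pool.Agent.helper14.CF (xE covD_E)
open Pool.Agent.helper14.NR (share)

mutual
theorem Z_c0_t6 : CovD 1 gZ [(183824809984, 12026118144), (182106324992, 17180000256), (137438953472, 137438953472)] :=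
  covD_E kZ_eq (.n 2 (.n 2 (.n 2 (.n 2 (.l 0) (.l 0)) (.n 2 (.l 0) (.l 0))) (.n 2 (.n 2 (.l 0) (.l 0)) (.n 0 (.l 0) (.l 0)))) (.n 0 (.n 2 (.n 2 (.l 0) (.l 0)) (.n 2 (.l 0) (.l 0))) (.n 2 (.n 2 (.l 0) (.l 0)) (.n 2 (.l 0) (.l 0)))))
    [(183824809984, 12026118144), (182106324992, 17180000256), (137438953472, 137438953472)] rfl (by decide +kernel)
theorem Z_c0_t7 : CovD 1 gZ [(207877046272, 12026118144), (182106324992, 17180000256), (137438953472, 137438953472)] :=
  covD_E kZ_eq (.n 2 (.n 2 (.n 2 (.n 2 (.l 0) (.l 0)) (.n 2 (.l 0) (.l 0))) (.n 0 (.n 2 (.l 0) (.l 0)) (.n 2 (.l 0) (.l 0)))) (.n 0 (.n 2 (.n 2 (.l 0) (.l 0)) (.n 2 (.l 0) (.l 0))) (.n 2 (.n 2 (.l 0) (.l 0)) (.n 2 (.l 0) (.l 0)))))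
    [(207877046272, 12026118144), (182106324992, 17180000256), (137438953472, 137438953472)] rfl (by decide +kernel)
end

mutual
theorem Z_c0_t9 : CovD 1 gZ [(195850928128, 24052236288), (216466325504, 17180000256), (68719476736, 68719476736)] :=
  covD_E kZ_eq (.n 2 (.n 2 (.n 2 (.l 0) (.n 0 (.l 0) (.l 0))) (.n 0 (.n 0 (.l 0) (.l 0)) (.n 0 (.l 0) (.l 0)))) (.n 0 (.n 2 (.n 0 (.l 0) (.l 0)) (.l 0)) (.n 2 (.n 0 (.l 0) (.l 0)) (.l 0))))
    [(195850928128, 24052236288), (216466325504, 17180000256), (68719476736, 68719476736)] rfl (by decide +kernel)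
theorem Z_c0_t10 : CovD 1 gZ [(195850928128, 24052236288), (216466325504, 17180000256), (206158430208, 68719476736)] :=
  covD_E kZ_eq (.n 0 (.n 2 (.n 2 (.l 0) (.n 0 (.l 0) (.l 0))) (.n 2 (.l 0) (.l 0))) (.n 2 (.n 0 (.n 2 (.l 0) (.l 0)) (.n 2 (.l 0) (.l 0))) (.n 2 (.n 0 (.l 0) (.l 0)) (.l 0))))
    [(195850928128, 24052236288), (216466325504, 17180000256), (206158430208, 68719476736)] rfl (by decide +kernel)
end

mutual
theorem Z_c0_t13 : CovD 1 gZ [(183824809984, 12026118144), (199286325248, 34360000512), (343597383680, 68719476736)] :=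
  covD_E kZ_eq (.n 2 (.n 2 (.n 1 (.n 0 (.l 0) (.l 0)) (.l 0)) (.n 0 (.l 0) (.l 0))) (.n 0 (.n 2 (.l 0) (.l 0)) (.n 2 (.l 0) (.l 0))))
    [(183824809984, 12026118144), (199286325248, 34360000512), (343597383680, 68719476736)] rfl (by decide +kernel)
theorem Z_c0_t14 : CovD 1 gZ [(183824809984, 12026118144), (199286325248, 34360000512), (481036337152, 68719476736)] :=
  covD_E kZ_eq (.n 0 (.n 1 (.n 2 (.l 0) (.l 0)) (.n 2 (.l 0) (.l 0))) (.n 1 (.n 2 (.l 0) (.l 0)) (.n 2 (.l 0) (.l 0))))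
    [(183824809984, 12026118144), (199286325248, 34360000512), (481036337152, 68719476736)] rfl (by decide +kernel)
end

mutual
theorem Z_c0_t16 : CovD 1 gZ [(207877046272, 12026118144), (182106324992, 17180000256), (412316860416, 137438953472)] :=
  covD_E kZ_eq (.n 2 (.n 2 (.n 0 (.n 2 (.l 0) (.l 0)) (.n 2 (.l 0) (.l 0))) (.n 2 (.l 0) (.l 0))) (.n 0 (.n 2 (.l 0) (.l 0)) (.n 2 (.l 0) (.l 0))))
    [(207877046272, 12026118144), (182106324992, 17180000256), (412316860416, 137438953472)] rfl (by decide +kernel)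
theorem Z_c0_t17 : CovD 1 gZ [(207877046272, 12026118144), (216466325504, 17180000256), (412316860416, 137438953472)] :=
  covD_E kZ_eq (.n 2 (.n 2 (.n 2 (.l 0) (.l 0)) (.n 2 (.l 0) (.l 0))) (.n 0 (.n 2 (.l 0) (.l 0)) (.n 2 (.l 0) (.l 0))))
    [(207877046272, 12026118144), (216466325504, 17180000256), (412316860416, 137438953472)] rfl (by decide +kernel)
end

mutual
theorem Z_c0_t19 : CovD 1 gZ [(183824809984, 12026118144), (199286325248, 34360000512), (824633720832, 274877906944)] :=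
  covD_E kZ_eq (.n 0 (.n 2 (.n 2 (.n 2 (.l 0) (.l 0)) (.n 2 (.l 0) (.l 0))) (.n 2 (.n 0 (.l 0) (.l 0)) (.l 0))) (.n 2 (.n 2 (.n 2 (.l 0) (.l 0)) (.n 2 (.l 0) (.l 0))) (.n 0 (.n 2 (.l 0) (.l 0)) (.n 2 (.l 0) (.l 0)))))
    [(183824809984, 12026118144), (199286325248, 34360000512), (824633720832, 274877906944)] rfl (by decide +kernel)
theorem Z_c0_t20 : CovD 1 gZ [(207877046272, 12026118144), (199286325248, 34360000512), (824633720832, 274877906944)] :=
  covD_E kZ_eq (.n 0 (.n 2 (.n 2 (.n 2 (.l 0) (.l 0)) (.n 2 (.l 0) (.l 0))) (.n 0 (.n 2 (.l 0) (.l 0)) (.n 2 (.l 0) (.l 0)))) (.n 2 (.n 2 (.n 2 (.l 0) (.l 0)) (.n 2 (.l 0) (.l 0))) (.n 0 (.n 2 (.l 0) (.l 0)) (.n 2 (.l 0) (.l 0)))))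
    [(207877046272, 12026118144), (199286325248, 34360000512), (824633720832, 274877906944)] rfl (by decide +kernel)
end

mutual
theorem Z_c0_t24 : CovD 1 gZ [(183824809984, 12026118144), (268006326272, 34360000512), (137438953472, 137438953472)] :=
  covD_E kZ_eq (.n 1 (.n 2 (.n 2 (.n 2 (.l 0) (.l 0)) (.n 2 (.l 0) (.l 0))) (.n 2 (.n 2 (.l 0) (.l 0)) (.n 2 (.l 0) (.l 0)))) (.n 2 (.n 2 (.n 2 (.l 0) (.l 0)) (.n 2 (.l 0) (.l 0))) (.n 2 (.n 2 (.l 0) (.l 0)) (.n 2 (.l 0) (.l 0)))))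
    [(183824809984, 12026118144), (268006326272, 34360000512), (137438953472, 137438953472)] rfl (by decide +kernel)
theorem Z_c0_t25 : CovD 1 gZ [(183824809984, 12026118144), (268006326272, 34360000512), (412316860416, 137438953472)] :=
  covD_E kZ_eq (.n 2 (.n 2 (.n 0 (.n 1 (.l 0) (.l 0)) (.n 1 (.l 0) (.l 0))) (.n 2 (.l 0) (.l 0))) (.n 0 (.n 2 (.l 0) (.l 0)) (.n 2 (.l 0) (.l 0))))
    [(183824809984, 12026118144), (268006326272, 34360000512), (412316860416, 137438953472)] rfl (by decide +kernel)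
end

mutual
theorem Z_c0_t26 : CovD 1 gZ [(183824809984, 12026118144), (268006326272, 34360000512), (824633720832, 274877906944)] :=
  covD_E kZ_eq (.n 2 (.n 0 (.n 2 (.n 2 (.l 0) (.l 0)) (.n 0 (.l 0) (.l 0))) (.n 2 (.n 2 (.l 0) (.l 0)) (.n 0 (.l 0) (.l 0)))) (.n 2 (.n 2 (.l 0) (.l 0)) (.n 0 (.l 0) (.l 0))))
    [(183824809984, 12026118144), (268006326272, 34360000512), (824633720832, 274877906944)] rfl (by decide +kernel)
theorem Z_c0_t29 : CovD 1 gZ [(207877046272, 12026118144), (268006326272, 34360000512), (137438953472, 137438953472)] :=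
  covD_E kZ_eq (.n 1 (.n 2 (.n 2 (.n 2 (.l 0) (.l 0)) (.n 2 (.l 0) (.l 0))) (.n 2 (.n 2 (.l 0) (.l 0)) (.n 2 (.l 0) (.l 0)))) (.n 2 (.n 2 (.n 2 (.l 0) (.l 0)) (.n 2 (.l 0) (.l 0))) (.n 2 (.n 2 (.l 0) (.l 0)) (.n 2 (.l 0) (.l 0)))))
    [(207877046272, 12026118144), (268006326272, 34360000512), (137438953472, 137438953472)] rfl (by decide +kernel)
end

mutual
theorem Z_c0_t30 : CovD 1 gZ [(207877046272, 12026118144), (268006326272, 34360000512), (412316860416, 137438953472)] :=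
  covD_E kZ_eq (.n 2 (.n 0 (.n 2 (.n 2 (.l 0) (.l 0)) (.n 0 (.l 0) (.l 0))) (.n 2 (.n 2 (.l 0) (.l 0)) (.n 0 (.l 0) (.l 0)))) (.n 2 (.n 2 (.l 0) (.l 0)) (.n 0 (.l 0) (.l 0))))
    [(207877046272, 12026118144), (268006326272, 34360000512), (412316860416, 137438953472)] rfl (by decide +kernel)
theorem Z_c0_t31 : CovD 1 gZ [(207877046272, 12026118144), (268006326272, 34360000512), (824633720832, 274877906944)] :=
  covD_E kZ_eq (.n 0 (.n 2 (.n 2 (.n 2 (.l 0) (.l 0)) (.n 0 (.l 0) (.l 0))) (.n 0 (.n 2 (.l 0) (.l 0)) (.n 2 (.l 0) (.l 0)))) (.n 2 (.n 2 (.n 2 (.l 0) (.l 0)) (.n 2 (.l 0) (.l 0))) (.n 0 (.n 2 (.l 0) (.l 0)) (.n 2 (.l 0) (.l 0)))))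
    [(207877046272, 12026118144), (268006326272, 34360000512), (824633720832, 274877906944)] rfl (by decide +kernel)
end

mutual
theorem Z_c0_t36 : CovD 1 gZ [(183824809984, 12026118144), (336726327296, 34360000512), (137438953472, 137438953472)] :=
  covD_E kZ_eq (.n 0 (.n 2 (.n 2 (.n 2 (.l 0) (.l 0)) (.n 2 (.l 0) (.l 0))) (.n 2 (.n 2 (.l 0) (.l 0)) (.n 1 (.l 0) (.l 0)))) (.n 2 (.n 2 (.n 2 (.l 0) (.l 0)) (.n 2 (.l 0) (.l 0))) (.n 2 (.n 2 (.l 0) (.l 0)) (.n 1 (.l 0) (.l 0)))))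
    [(183824809984, 12026118144), (336726327296, 34360000512), (137438953472, 137438953472)] rfl (by decide +kernel)
theorem Z_c0_t37 : CovD 1 gZ [(183824809984, 12026118144), (336726327296, 34360000512), (412316860416, 137438953472)] :=
  covD_E kZ_eq (.n 2 (.n 2 (.n 2 (.n 0 (.l 0) (.l 0)) (.l 0)) (.n 2 (.l 0) (.l 0))) (.n 0 (.n 2 (.l 0) (.l 0)) (.n 2 (.l 0) (.l 0))))
    [(183824809984, 12026118144), (336726327296, 34360000512), (412316860416, 137438953472)] rfl (by decide +kernel)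
end

mutual
theorem Z_c0_t38 : CovD 1 gZ [(183824809984, 12026118144), (336726327296, 34360000512), (824633720832, 274877906944)] :=
  covD_E kZ_eq (.n 0 (.n 2 (.n 2 (.n 2 (.l 0) (.l 0)) (.n 0 (.l 0) (.l 0))) (.n 2 (.n 0 (.l 0) (.l 0)) (.l 0))) (.n 2 (.n 2 (.n 2 (.l 0) (.l 0)) (.n 0 (.l 0) (.l 0))) (.n 2 (.n 0 (.l 0) (.l 0)) (.l 0))))
    [(183824809984, 12026118144), (336726327296, 34360000512), (824633720832, 274877906944)] rfl (by decide +kernel)
theorem Z_c0_t41 : CovD 1 gZ [(183824809984, 12026118144), (388266328064, 17180000256), (274877906944, 274877906944)] :=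
  covD_E kZ_eq (.n 2 (.n 2 (.n 2 (.n 2 (.l 0) (.l 0)) (.n 2 (.l 0) (.l 0))) (.n 0 (.n 2 (.l 0) (.l 0)) (.n 2 (.l 0) (.l 0)))) (.n 0 (.n 2 (.n 2 (.l 0) (.l 0)) (.n 2 (.l 0) (.l 0))) (.n 2 (.n 2 (.l 0) (.l 0)) (.n 2 (.l 0) (.l 0)))))
    [(183824809984, 12026118144), (388266328064, 17180000256), (274877906944, 274877906944)] rfl (by decide +kernel)
end

mutual
theorem Z_c0_t42 : CovD 1 gZ [(183824809984, 12026118144), (422626328576, 17180000256), (274877906944, 274877906944)] :=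
  covD_E kZ_eq (.n 2 (.n 2 (.n 2 (.n 2 (.l 0) (.l 0)) (.n 2 (.l 0) (.l 0))) (.n 2 (.n 2 (.l 0) (.l 0)) (.n 0 (.l 0) (.l 0)))) (.n 0 (.n 2 (.n 2 (.l 0) (.l 0)) (.n 2 (.l 0) (.l 0))) (.n 2 (.n 2 (.l 0) (.l 0)) (.n 2 (.l 0) (.l 0)))))
    [(183824809984, 12026118144), (422626328576, 17180000256), (274877906944, 274877906944)] rfl (by decide +kernel)
theorem Z_c0_t44 : CovD 1 gZ [(183824809984, 12026118144), (405446328320, 34360000512), (687194767360, 137438953472)] :=
  covD_E kZ_eq (.n 2 (.n 1 (.n 2 (.n 0 (.l 0) (.l 0)) (.l 0)) (.n 0 (.n 2 (.l 0) (.l 0)) (.n 2 (.l 0) (.l 0)))) (.n 0 (.n 2 (.l 0) (.l 0)) (.n 2 (.l 0) (.l 0))))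
    [(183824809984, 12026118144), (405446328320, 34360000512), (687194767360, 137438953472)] rfl (by decide +kernel)
end

mutual
theorem Z_c0_t45 : CovD 1 gZ [(183824809984, 12026118144), (405446328320, 34360000512), (962072674304, 137438953472)] :=
  covD_E kZ_eq (.n 0 (.n 2 (.n 2 (.l 0) (.l 0)) (.n 0 (.l 0) (.l 0))) (.n 2 (.n 2 (.l 0) (.l 0)) (.n 2 (.l 0) (.l 0))))
    [(183824809984, 12026118144), (405446328320, 34360000512), (962072674304, 137438953472)] rfl (by decide +kernel)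
theorem Z_c0_t49 : CovD 1 gZ [(207877046272, 12026118144), (336726327296, 34360000512), (137438953472, 137438953472)] :=
  covD_E kZ_eq (.n 1 (.n 2 (.n 2 (.n 2 (.l 0) (.l 0)) (.n 2 (.l 0) (.l 0))) (.n 2 (.n 2 (.l 0) (.l 0)) (.n 0 (.l 0) (.l 0)))) (.n 2 (.n 2 (.n 2 (.l 0) (.l 0)) (.n 2 (.l 0) (.l 0))) (.n 0 (.n 2 (.l 0) (.l 0)) (.n 2 (.l 0) (.l 0)))))
    [(207877046272, 12026118144), (336726327296, 34360000512), (137438953472, 137438953472)] rfl (by decide +kernel)
end

mutual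
theorem Z_c0_t50 : CovD 1 gZ [(207877046272, 12026118144), (336726327296, 34360000512), (412316860416, 137438953472)] :=
  covD_E kZ_eq (.n 2 (.n 2 (.n 2 (.n 0 (.l 0) (.l 0)) (.l 0)) (.n 2 (.l 0) (.l 0))) (.n 0 (.n 2 (.l 0) (.l 0)) (.n 2 (.l 0) (.l 0))))
    [(207877046272, 12026118144), (336726327296, 34360000512), (412316860416, 137438953472)] rfl (by decide +kernel)
theorem Z_c0_t51 : CovD 1 gZ [(207877046272, 12026118144), (336726327296, 34360000512), (824633720832, 274877906944)] :=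
  covD_E kZ_eq (.n 0 (.n 2 (.n 2 (.n 2 (.l 0) (.l 0)) (.n 0 (.l 0) (.l 0))) (.n 0 (.n 2 (.l 0) (.l 0)) (.n 2 (.l 0) (.l 0)))) (.n 2 (.n 2 (.n 2 (.l 0) (.l 0)) (.n 0 (.l 0) (.l 0))) (.n 0 (.n 2 (.l 0) (.l 0)) (.n 2 (.l 0) (.l 0)))))
    [(207877046272, 12026118144), (336726327296, 34360000512), (824633720832, 274877906944)] rfl (by decide +kernel)
end

mutual
theorem Z_c0_t54 : CovD 1 gZ [(207877046272, 12026118144), (388266328064, 17180000256), (274877906944, 274877906944)] :=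
  covD_E kZ_eq (.n 2 (.n 2 (.n 2 (.n 2 (.l 0) (.l 0)) (.n 2 (.l 0) (.l 0))) (.n 0 (.n 2 (.l 0) (.l 0)) (.n 2 (.l 0) (.l 0)))) (.n 0 (.n 2 (.n 2 (.l 0) (.l 0)) (.n 2 (.l 0) (.l 0))) (.n 2 (.n 2 (.l 0) (.l 0)) (.n 2 (.l 0) (.l 0)))))
    [(207877046272, 12026118144), (388266328064, 17180000256), (274877906944, 274877906944)] rfl (by decide +kernel)
theorem Z_c0_t55 : CovD 1 gZ [(207877046272, 12026118144), (422626328576, 17180000256), (274877906944, 274877906944)] :=
  covD_E kZ_eq (.n 2 (.n 2 (.n 2 (.n 2 (.l 0) (.l 0)) (.n 2 (.l 0) (.l 0))) (.n 0 (.n 2 (.l 0) (.l 0)) (.n 2 (.l 0) (.l 0)))) (.n 0 (.n 2 (.n 2 (.l 0) (.l 0)) (.n 2 (.l 0) (.l 0))) (.n 2 (.n 2 (.l 0) (.l 0)) (.n 2 (.l 0) (.l 0)))))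
    [(207877046272, 12026118144), (422626328576, 17180000256), (274877906944, 274877906944)] rfl (by decide +kernel)
end

mutual
theorem Z_c0_t57 : CovD 1 gZ [(207877046272, 12026118144), (405446328320, 34360000512), (687194767360, 137438953472)] :=
  covD_E kZ_eq (.n 2 (.n 2 (.n 1 (.l 0) (.n 0 (.l 0) (.l 0))) (.n 0 (.l 0) (.l 0))) (.n 0 (.n 2 (.l 0) (.l 0)) (.n 2 (.l 0) (.l 0))))
    [(207877046272, 12026118144), (405446328320, 34360000512), (687194767360, 137438953472)] rfl (by decide +kernel)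
theorem Z_c0_t58 : CovD 1 gZ [(207877046272, 12026118144), (405446328320, 34360000512), (962072674304, 137438953472)] :=
  covD_E kZ_eq (.n 0 (.n 2 (.n 2 (.l 0) (.l 0)) (.n 2 (.l 0) (.l 0))) (.n 2 (.n 2 (.l 0) (.l 0)) (.n 2 (.l 0) (.l 0))))
    [(207877046272, 12026118144), (405446328320, 34360000512), (962072674304, 137438953472)] rfl (by decide +kernel)
end

mutual
theorem T_c0 : CovD 1 gT [(195850928128, 24052236288), (302366326784, 137440002048)] :=
  covD_E kT_eq (.l 0)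
    [(195850928128, 24052236288), (302366326784, 137440002048)] rfl (by decide +kernel)
theorem S_c0 : CovD 0 gS [(195850928128, 24052236288), (302366326784, 137440002048)] :=
  covD_E kS_eq (.n 1 (.n 1 (.n 0 (.l 0) (.l 0)) (.l 0)) (.n 1 (.l 0) (.n 0 (.l 0) (.l 0))))
    [(195850928128, 24052236288), (302366326784, 137440002048)] rfl (by decide +kernel)
end

theorem Z_c0_t5 : CovD 1 gZ [(195850928128, 24052236288), (182106324992, 17180000256), (137438953472, 137438953472)] :=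
  covD_split 0 (by decide +kernel) Z_c0_t6 Z_c0_t7

theorem Z_c0_t8 : CovD 1 gZ [(195850928128, 24052236288), (216466325504, 17180000256), (137438953472, 137438953472)] :=
  covD_split 2 (by decide +kernel) Z_c0_t9 Z_c0_t10

theorem Z_c0_t4 : CovD 1 gZ [(195850928128, 24052236288), (199286325248, 34360000512), (137438953472, 137438953472)] :=
  covD_split 1 (by decide +kernel) Z_c0_t5 Z_c0_t8

theorem Z_c0_t12 : CovD 1 gZ [(183824809984, 12026118144), (199286325248, 34360000512), (412316860416, 137438953472)] :=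
  covD_split 2 (by decide +kernel) Z_c0_t13 Z_c0_t14

theorem Z_c0_t15 : CovD 1 gZ [(207877046272, 12026118144), (199286325248, 34360000512), (412316860416, 137438953472)] :=
  covD_split 1 (by decide +kernel) Z_c0_t16 Z_c0_t17

theorem Z_c0_t11 : CovD 1 gZ [(195850928128, 24052236288), (199286325248, 34360000512), (412316860416, 137438953472)] :=
  covD_split 0 (by decide +kernel) Z_c0_t12 Z_c0_t15

theorem Z_c0_t3 : CovD 1 gZ [(195850928128, 24052236288), (199286325248, 34360000512), (274877906944, 274877906944)] :=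
  covD_split 2 (by decide +kernel) Z_c0_t4 Z_c0_t11

theorem Z_c0_t18 : CovD 1 gZ [(195850928128, 24052236288), (199286325248, 34360000512), (824633720832, 274877906944)] :=
  covD_split 0 (by decide +kernel) Z_c0_t19 Z_c0_t20

theorem Z_c0_t2 : CovD 1 gZ [(195850928128, 24052236288), (199286325248, 34360000512), (549755813888, 549755813888)] :=
  covD_split 2 (by decide +kernel) Z_c0_t3 Z_c0_t18

theorem Z_c0_t23 : CovD 1 gZ [(183824809984, 12026118144), (268006326272, 34360000512), (274877906944, 274877906944)] :=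
  covD_split 2 (by decide +kernel) Z_c0_t24 Z_c0_t25

theorem Z_c0_t22 : CovD 1 gZ [(183824809984, 12026118144), (268006326272, 34360000512), (549755813888, 549755813888)] :=
  covD_split 2 (by decide +kernel) Z_c0_t23 Z_c0_t26

theorem Z_c0_t28 : CovD 1 gZ [(207877046272, 12026118144), (268006326272, 34360000512), (274877906944, 274877906944)] :=
  covD_split 2 (by decide +kernel) Z_c0_t29 Z_c0_t30

theorem Z_c0_t27 : CovD 1 gZ [(207877046272, 12026118144), (268006326272, 34360000512), (549755813888, 549755813888)] :=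
  covD_split 2 (by decide +kernel) Z_c0_t28 Z_c0_t31

theorem Z_c0_t21 : CovD 1 gZ [(195850928128, 24052236288), (268006326272, 34360000512), (549755813888, 549755813888)] :=
  covD_split 0 (by decide +kernel) Z_c0_t22 Z_c0_t27

theorem Z_c0_t1 : CovD 1 gZ [(195850928128, 24052236288), (233646325760, 68720001024), (549755813888, 549755813888)] :=
  covD_split 1 (by decide +kernel) Z_c0_t2 Z_c0_t21

theorem Z_c0_t35 : CovD 1 gZ [(183824809984, 12026118144), (336726327296, 34360000512), (274877906944, 274877906944)] :=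
  covD_split 2 (by decide +kernel) Z_c0_t36 Z_c0_t37

theorem Z_c0_t34 : CovD 1 gZ [(183824809984, 12026118144), (336726327296, 34360000512), (549755813888, 549755813888)] :=
  covD_split 2 (by decide +kernel) Z_c0_t35 Z_c0_t38

theorem Z_c0_t40 : CovD 1 gZ [(183824809984, 12026118144), (405446328320, 34360000512), (274877906944, 274877906944)] :=
  covD_split 1 (by decide +kernel) Z_c0_t41 Z_c0_t42

theorem Z_c0_t43 : CovD 1 gZ [(183824809984, 12026118144), (405446328320, 34360000512), (824633720832, 274877906944)] :=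
  covD_split 2 (by decide +kernel) Z_c0_t44 Z_c0_t45

theorem Z_c0_t39 : CovD 1 gZ [(183824809984, 12026118144), (405446328320, 34360000512), (549755813888, 549755813888)] :=
  covD_split 2 (by decide +kernel) Z_c0_t40 Z_c0_t43

theorem Z_c0_t33 : CovD 1 gZ [(183824809984, 12026118144), (371086327808, 68720001024), (549755813888, 549755813888)] :=
  covD_split 1 (by decide +kernel) Z_c0_t34 Z_c0_t39

theorem Z_c0_t48 : CovD 1 gZ [(207877046272, 12026118144), (336726327296, 34360000512), (274877906944, 274877906944)] :=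
  covD_split 2 (by decide +kernel) Z_c0_t49 Z_c0_t50

theorem Z_c0_t47 : CovD 1 gZ [(207877046272, 12026118144), (336726327296, 34360000512), (549755813888, 549755813888)] :=
  covD_split 2 (by decide +kernel) Z_c0_t48 Z_c0_t51

theorem Z_c0_t53 : CovD 1 gZ [(207877046272, 12026118144), (405446328320, 34360000512), (274877906944, 274877906944)] :=
  covD_split 1 (by decide +kernel) Z_c0_t54 Z_c0_t55

theorem Z_c0_t56 : CovD 1 gZ [(207877046272, 12026118144), (405446328320, 34360000512), (824633720832, 274877906944)] :=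
  covD_split 2 (by decide +kernel) Z_c0_t57 Z_c0_t58

theorem Z_c0_t52 : CovD 1 gZ [(207877046272, 12026118144), (405446328320, 34360000512), (549755813888, 549755813888)] :=
  covD_split 2 (by decide +kernel) Z_c0_t53 Z_c0_t56

theorem Z_c0_t46 : CovD 1 gZ [(207877046272, 12026118144), (371086327808, 68720001024), (549755813888, 549755813888)] :=
  covD_split 1 (by decide +kernel) Z_c0_t47 Z_c0_t52

theorem Z_c0_t32 : CovD 1 gZ [(195850928128, 24052236288), (371086327808, 68720001024), (549755813888, 549755813888)] :=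
  covD_split 0 (by decide +kernel) Z_c0_t33 Z_c0_t46

theorem Z_c0 : CovD 1 gZ [(195850928128, 24052236288), (302366326784, 137440002048), (549755813888, 549755813888)] :=
  covD_split 1 (by decide +kernel) Z_c0_t1 Z_c0_t32

end Pool.Agent.helper14.NR.E5b
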